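import Pool.Agent.Helper27.RV.StL

/-!
# Project RV: module KNU
-/

set_option autoImplicit false

open Cardinal Ordinal Set Filter

universe u

namespace Pool.Agent.Helper11.RV

open Pool.Agent.Helper65.GS Pool.Agent.Helper36.VC Pool.Agent.Helper27.RV

theorem pKNU : StKNU.{u} := by
  intro β δ S hδ
  refine ⟨?_, ?_, ?_⟩
  · rintro v Y Z hYZ ⟨Q, q, hQ, hq, h⟩
    exact ⟨Q, q, hQ, hq, fun e he => h e (hYZ he)⟩
  · intro v I0 Y hI0 hY
    choose Q q hQ hq h using hY
    refine ⟨Σ i, Q i, fun s => q s.1 s.2, ?_, fun s => hq s.1 s.2, ?_⟩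
    · rw [mk_sigma]
      calc Cardinal.sum (fun i => #(Q i)) ≤ Cardinal.sum (fun _ : I0 => δ) :=
            Cardinal.sum_le_sum _ _ hQ
        _ = #I0 * δ := Cardinal.sum_const' I0 δ
        _ ≤ δ * δ := mul_le_mul' hI0 le_rfl
        _ = δ := mul_eq_self hδ
    · intro e he
      obtain ⟨i, hi⟩ := mem_iUnion.1 he
      obtain ⟨j, e', h1⟩ := h i e hi
      exact ⟨⟨i, j⟩, e', h1⟩
  · intro v w hw
    refine ⟨PUnit, fun _ => w, ?_, fun _ => hw, ?_⟩
    · rw [mk_punit]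
      exact one_le_aleph0.trans hδ
    · intro e he
      exact ⟨PUnit.unit, e, he⟩

end Pool.Agent.Helper11.RV
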